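import Pool.Agent.H54.RH.Targets

/-!
# Board rhx_modules, row CT: the numbers of vertices, edges and hexagons (helper12)
-/

set_option autoImplicit false

namespace Pool.Agent.H12.RHX

open Pool.Agent.H54.RH
open Pool.Agent.H54.PM (body IsGon IsEdge Un IsPM ver edg chi Ori)

variable {n : ℕ}

theorem mem_hf (h : W n) (x : Fin n → ℝ) : x ∈ hf h ↔ ∃ a, IsVx h a ∧ pw a = x := by
  classical
  unfold hf
  rw [Finset.mem_image]
  constructor
  · rintro ⟨a, ha, rfl⟩
    exact ⟨a, (Finset.mem_filter.mp ha).2, rfl⟩
  · rintro ⟨a, ha, rfl⟩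
    exact ⟨a, Finset.mem_filter.mpr ⟨Finset.mem_univ _, ha⟩, rfl⟩

theorem mem_hfam (M : Finset (W n)) (A : Finset (Fin n → ℝ)) :
    A ∈ hfam M ↔ ∃ h ∈ M, hf h = A := by
  classical
  unfold hfam
  rw [Finset.mem_image]

theorem pw_inj : Function.Injective (pw (n := n)) := by
  intro a b hab
  funext t
  have h1 := congrFun hab t
  unfold pw at h1
  exact Fin.ext (by exact_mod_cast h1)

/-- the vertices of the hexagon `h` with the letter `c` at the place `k` -/
def Vs (x : Σ _ : W n, Fin n × Fin 3) : Finset (W n) :=
  Finset.univ.filter fun a => IsVx x.1 a ∧ a x.2.1 = x.2.2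

theorem mem_Vs (h : W n) (k : Fin n) (c : Fin 3) (a : W n) :
    a ∈ Vs ⟨h, (k, c)⟩ ↔ IsVx h a ∧ a k = c := by
  unfold Vs
  rw [Finset.mem_filter]
  exact and_iff_right (Finset.mem_univ _)

theorem act_three (h : W n) (h3 : (act h).card = 3) (k : Fin n) (hk : h k = 1) :
    ∃ p q, p ≠ q ∧ p ≠ k ∧ q ≠ k ∧ ∀ t, h t = 1 ↔ t = k ∨ t = p ∨ t = q := by
  have hkm : k ∈ act h := Finset.mem_filter.mpr ⟨Finset.mem_univ _, hk⟩
  have h2 : ((act h).erase k).card = 2 := by
    rw [Finset.card_erase_of_mem hkm, h3]
  obtain ⟨p, q, hpq, he⟩ := Finset.card_eq_two.mp h2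
  have hp : p ∈ (act h).erase k := by rw [he]; simp
  have hq : q ∈ (act h).erase k := by rw [he]; simp
  refine ⟨p, q, hpq, (Finset.mem_erase.mp hp).1, (Finset.mem_erase.mp hq).1, ?_⟩
  intro t
  have hmem : h t = 1 ↔ t ∈ act h := by
    unfold act
    rw [Finset.mem_filter]
    exact (and_iff_right (Finset.mem_univ _)).symm
  rw [hmem]
  constructor
  · intro ht
    by_cases htk : t = k
    · exact Or.inl htk
    · have h4 : t ∈ (act h).erase k := Finset.mem_erase.mpr ⟨htk, ht⟩
      rw [he, Finset.mem_insert, Finset.mem_singleton] at h4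
      exact Or.inr h4
  · rintro (rfl | rfl | rfl)
    · exact hkm
    · exact (Finset.mem_erase.mp hp).2
    · exact (Finset.mem_erase.mp hq).2

theorem fin3_cases (c : Fin 3) (hc : c ≠ 1) : c = 0 ∨ c = 2 := by
  revert c
  decide

theorem Vs_pair (h : W n) (h3 : (act h).card = 3) (k : Fin n) (hk : h k = 1) (c : Fin 3)
    (hc : c ≠ 1) : ∃ a a' : W n, a ≠ a' ∧ Vs ⟨h, (k, c)⟩ = {a, a'} ∧
      ∀ t, h t = 1 → a t = a' t → t = k := by
  classical
  obtain ⟨p, q, hpq, hpk, hqk, hact⟩ := act_three h h3 k hk
  have hhp : h p = 1 := (hact p).mpr (Or.inr (Or.inl rfl))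
  have hhq : h q = 1 := (hact q).mpr (Or.inr (Or.inr rfl))
  have h21 : (2 : Fin 3) ≠ 1 := by decide
  have h01 : (0 : Fin 3) ≠ 1 := by decide
  have h20 : (2 : Fin 3) ≠ 0 := by decide
  rcases fin3_cases c hc with rfl | rfl
  · refine ⟨Function.update (Function.update h k 0) p 2,
      Function.update (Function.update h k 0) q 2, ?_, ?_, ?_⟩
    · intro he
      have h1 := congrFun he p
      rw [Function.update_self, Function.update_of_ne hpq, Function.update_of_ne hpk, hhp] at h1
      exact h21 h1
    · ext v
      rw [mem_Vs, Finset.mem_insert, Finset.mem_singleton]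
      constructor
      · rintro ⟨⟨z, y, hz, hy, hzy, rfl⟩, hvk⟩
        have hyk : y ≠ k := by
          rintro rfl
          rw [Function.update_self] at hvk
          exact h20 hvk
        rw [Function.update_of_ne hyk.symm] at hvk
        have hzk : z = k := by
          by_contra hne
          rw [Function.update_of_ne (Ne.symm hne), hk] at hvk
          exact h01 hvk.symm
        subst hzk
        rcases (hact y).mp hy with h5 | h5 | h5
        · exact absurd h5 hyk
        · left; rw [h5]
        · right; rw [h5]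
      · rintro (rfl | rfl)
        · refine ⟨⟨k, p, hk, hhp, hpk.symm, rfl⟩, ?_⟩
          rw [Function.update_of_ne hpk.symm, Function.update_self]
        · refine ⟨⟨k, q, hk, hhq, hqk.symm, rfl⟩, ?_⟩
          rw [Function.update_of_ne hqk.symm, Function.update_self]
    · intro t ht he
      rcases (hact t).mp ht with h5 | h5 | h5
      · exact h5
      · exfalso
        subst h5
        rw [Function.update_self, Function.update_of_ne hpq, Function.update_of_ne hpk, hhp] at he
        exact h21 he
      · exfalso
        subst h5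
        rw [Function.update_self, Function.update_of_ne hpq.symm, Function.update_of_ne hqk,
          hhq] at he
        exact h21 he.symm
  · refine ⟨Function.update (Function.update h p 0) k 2,
      Function.update (Function.update h q 0) k 2, ?_, ?_, ?_⟩
    · intro he
      have h1 := congrFun he p
      rw [Function.update_of_ne hpk, Function.update_of_ne hpk, Function.update_self,
        Function.update_of_ne hpq, hhp] at h1
      exact h01 h1
    · ext v
      rw [mem_Vs, Finset.mem_insert, Finset.mem_singleton]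
      constructor
      · rintro ⟨⟨z, y, hz, hy, hzy, rfl⟩, hvk⟩
        have hyk : y = k := by
          by_contra hne
          rw [Function.update_of_ne (Ne.symm hne)] at hvk
          by_cases hzk : k = z
          · subst hzk
            rw [Function.update_self] at hvk
            exact h20 hvk.symm
          · rw [Function.update_of_ne hzk, hk] at hvk
            exact h21 hvk.symm
        subst hyk
        rcases (hact z).mp hz with h5 | h5 | h5
        · exact absurd h5 hzy
        · left; rw [h5]
        · right; rw [h5]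
      · rintro (rfl | rfl)
        · exact ⟨⟨p, k, hhp, hk, hpk, rfl⟩, Function.update_self _ _ _⟩
        · exact ⟨⟨q, k, hhq, hk, hqk, rfl⟩, Function.update_self _ _ _⟩
    · intro t ht he
      rcases (hact t).mp ht with h5 | h5 | h5
      · exact h5
      · exfalso
        subst h5
        rw [Function.update_of_ne hpk, Function.update_of_ne hpk, Function.update_self,
          Function.update_of_ne hpq, hhp] at he
        exact h01 he
      · exfalso
        subst h5
        rw [Function.update_of_ne hqk, Function.update_of_ne hqk, Function.update_self,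
          Function.update_of_ne hpq.symm, hhq] at he
        exact h01 he.symm

/-- the vertices of two neighbours on the common edge -/
theorem Vs_sw_sub (h : W n) (k l : Fin n) (c : Fin 3) (hk : h k = 1) (hl : h l = c) (hc : c ≠ 1) :
    Vs ⟨h, (k, c)⟩ ⊆ Vs ⟨sw h k l, (l, c)⟩ := by
  classical
  have hlk : l ≠ k := by
    rintro rfl
    exact hc (hl.symm.trans hk)
  have h21 : (2 : Fin 3) ≠ 1 := by decide
  have h01 : (0 : Fin 3) ≠ 1 := by decide
  have h20 : (2 : Fin 3) ≠ 0 := by decide
  have hsl : sw h k l l = 1 := by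
    unfold sw
    rw [if_neg hlk, if_pos rfl, hk]
  have hso : ∀ t, t ≠ k → t ≠ l → sw h k l t = h t := by
    intro t h1 h2
    unfold sw
    rw [if_neg h1, if_neg h2]
  have hsk : sw h k l k = c := by
    unfold sw
    rw [if_pos rfl, hl]
  intro v hv
  rw [mem_Vs] at hv ⊢
  obtain ⟨⟨z, y, hz, hy, hzy, rfl⟩, hvk⟩ := hv
  have hyl : y ≠ l := by
    rintro rfl
    exact hc (hl.symm.trans hy)
  have hzl : z ≠ l := by
    rintro rfl
    exact hc (hl.symm.trans hz)
  refine ⟨?_, ?_⟩
  · rcases fin3_cases c hc with rfl | rfl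
    · -- the place `k` becomes 0
      have hyk : y ≠ k := by
        rintro rfl
        rw [Function.update_self] at hvk
        exact h20 hvk
      rw [Function.update_of_ne hyk.symm] at hvk
      have hzk : z = k := by
        by_contra hne
        rw [Function.update_of_ne (Ne.symm hne), hk] at hvk
        exact h01 hvk.symm
      subst hzk
      refine ⟨l, y, hsl, ?_, hyl.symm, ?_⟩
      · rw [hso y hyk hyl, hy]
      · funext t
        by_cases hty : t = y
        · subst hty
          rw [Function.update_self, Function.update_self]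
        · rw [Function.update_of_ne hty, Function.update_of_ne hty]
          by_cases htz : t = z
          · subst htz
            rw [Function.update_self, Function.update_of_ne hlk.symm, hsk]
          · rw [Function.update_of_ne htz]
            by_cases htl : t = l
            · subst htl
              rw [Function.update_self, hl]
            · rw [Function.update_of_ne htl, hso t htz htl]
    · have hyk : y = k := by
        by_contra hne
        rw [Function.update_of_ne (Ne.symm hne)] at hvk
        by_cases hzk : k = z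
        · subst hzk
          rw [Function.update_self] at hvk
          exact h20 hvk.symm
        · rw [Function.update_of_ne hzk, hk] at hvk
          exact h21 hvk.symm
      subst hyk
      refine ⟨z, l, ?_, hsl, hzl, ?_⟩
      · rw [hso z hzy hzl, hz]
      · funext t
        by_cases hty : t = y
        · subst hty
          rw [Function.update_self, Function.update_of_ne hlk.symm,
            Function.update_of_ne hzy.symm, hsk]
        · rw [Function.update_of_ne hty]
          by_cases htl : t = l
          · subst htl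
            rw [Function.update_self, Function.update_of_ne hzl.symm, hl]
          · rw [Function.update_of_ne htl]
            by_cases htz : t = z
            · subst htz
              rw [Function.update_self, Function.update_self]
            · rw [Function.update_of_ne htz, Function.update_of_ne htz, hso t hty htl]
  · rw [Function.update_of_ne hyl.symm, Function.update_of_ne hzl.symm, hl]

theorem sw_sw (h : W n) (k l : Fin n) : sw (sw h k l) l k = h := by
  funext t
  unfold sw
  by_cases h1 : t = l
  · subst h1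
    by_cases h2 : k = t
    · subst h2
      simp
    · simp
  · by_cases h2 : t = k
    · subst h2
      simp [h1]
      rintro rfl
      rfl
    · simp [h1, h2]

theorem Vs_sw (h : W n) (k l : Fin n) (c : Fin 3) (hk : h k = 1) (hl : h l = c) (hc : c ≠ 1) :
    Vs ⟨sw h k l, (l, c)⟩ = Vs ⟨h, (k, c)⟩ := by
  have hlk : l ≠ k := by
    rintro rfl
    exact hc (hl.symm.trans hk)
  apply Finset.Subset.antisymm
  · have h1 := Vs_sw_sub (sw h k l) l k c (by
      unfold sw
      rw [if_neg hlk, if_pos rfl, hk]) (by
      unfold sw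
      rw [if_pos rfl, hl]) hc
    rw [sw_sw] at h1
    exact h1
  · exact Vs_sw_sub h k l c hk hl hc

/-- the triples -/
def Tr (M : Finset (W n)) : Finset (Σ _ : W n, Fin n × Fin 3) :=
  M.sigma fun h => act h ×ˢ ({0, 2} : Finset (Fin 3))

theorem mem_Tr (M : Finset (W n)) (h : W n) (k : Fin n) (c : Fin 3) :
    (⟨h, (k, c)⟩ : Σ _ : W n, Fin n × Fin 3) ∈ Tr M ↔ h ∈ M ∧ h k = 1 ∧ c ≠ 1 := by
  unfold Tr act
  rw [Finset.mem_sigma, Finset.mem_product, Finset.mem_filter, Finset.mem_insert,
    Finset.mem_singleton]
  constructor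
  · rintro ⟨h1, ⟨-, h2⟩, h3⟩
    refine ⟨h1, h2, ?_⟩
    rcases h3 with h3 | h3
    · have h4 : c = 0 := h3
      rw [h4]; decide
    · have h4 : c = 2 := h3
      rw [h4]; decide
  · rintro ⟨h1, h2, h3⟩
    exact ⟨h1, ⟨Finset.mem_univ _, h2⟩, fin3_cases c h3⟩

theorem pf_CT (h0 : T_HB) (h1 : T_HE) (h2 : T_HX) (h3 : T_HS) : T_CT := by
  classical
  intro n b M hG
  have _ := h0
  have hinj : Set.InjOn (hf (n := n)) M := by
    intro h hh g hg he
    by_contra hne
    exact (h2 n h g (hG.three h hh).1 (hG.three g hg).1
      ((hG.three h hh).2.trans (hG.three g hg).2.symm) hne).2.2 he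
  refine ⟨?_, ?_, ?_⟩
  · -- the vertices
    have e1 : ver (hfam M) = pw '' (↑(vx M) : Set (W n)) := by
      ext x
      constructor
      · rintro ⟨A, hA, hx⟩
        obtain ⟨h, hh, rfl⟩ := (mem_hfam M A).mp hA
        obtain ⟨a, ha, rfl⟩ := (mem_hf h x).mp hx
        refine ⟨a, ?_, rfl⟩
        unfold vx
        rw [Finset.mem_coe, Finset.mem_filter]
        exact ⟨Finset.mem_univ _, h, hh, ha⟩
      · rintro ⟨a, ha, rfl⟩
        unfold vx at ha
        rw [Finset.mem_coe, Finset.mem_filter] at ha
        obtain ⟨-, h, hh, ha⟩ := ha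
        exact ⟨hf h, (mem_hfam M _).mpr ⟨h, hh, rfl⟩, (mem_hf h _).mpr ⟨a, ha, rfl⟩⟩
    rw [e1, Set.ncard_image_of_injective _ pw_inj, Set.ncard_coe_finset]
  · -- the edges
    let ψ : Sym2 (Fin n → ℝ) → Set (Fin n → ℝ) := fun e => {x | x ∈ e}
    have hψ : Function.Injective ψ := by
      intro e e' he
      apply Sym2.ext
      intro x
      have h4 : x ∈ ψ e ↔ x ∈ ψ e' := by rw [he]
      exact h4
    have hψs : ∀ u v : Fin n → ℝ, ψ s(u, v) = {u, v} := by
      intro u v
      ext x
      show x ∈ s(u, v) ↔ _
      rw [Sym2.mem_iff]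
      rfl
    let P : Finset (W n) → Set (Fin n → ℝ) := fun S => pw '' (↑S : Set (W n))
    have hP : Function.Injective P := by
      intro S S' he
      exact Finset.coe_injective ((Set.image_injective.mpr pw_inj) he)
    have e1 : ψ '' edg (hfam M) = P '' (↑((Tr M).image Vs) : Set (Finset (W n))) := by
      ext S
      constructor
      · rintro ⟨e, ⟨A, hA, u, v, huv, rfl⟩, rfl⟩
        obtain ⟨h, hh, rfl⟩ := (mem_hfam M A).mp hA
        obtain ⟨a, a', rfl, rfl, ha, ha', hne, t, ht, hat, hat1⟩ :=
          (h1 n h (hG.three h hh).1 u v).mp huv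
        obtain ⟨d, d', hdd, hd, -⟩ := Vs_pair h (hG.three h hh).1 t ht (a t) hat1
        refine ⟨Vs ⟨h, (t, a t)⟩, ?_, ?_⟩
        · rw [Finset.mem_coe, Finset.mem_image]
          exact ⟨_, (mem_Tr M h t (a t)).mpr ⟨hh, ht, hat1⟩, rfl⟩
        · have h5 : Vs ⟨h, (t, a t)⟩ = {a, a'} := by
            symm
            apply Finset.eq_of_subset_of_card_le
            · intro x hx
              rw [Finset.mem_insert, Finset.mem_singleton] at hx
              rw [mem_Vs]
              rcases hx with rfl | rfl
              · exact ⟨ha, rfl⟩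
              · exact ⟨ha', hat.symm⟩
            · rw [hd, Finset.card_pair hdd, Finset.card_pair hne]
          show pw '' (↑(Vs ⟨h, (t, a t)⟩) : Set (W n)) = ψ s(pw a, pw a')
          rw [h5, hψs, Finset.coe_pair, Set.image_pair]
      · rintro ⟨S', hS', rfl⟩
        rw [Finset.mem_coe, Finset.mem_image] at hS'
        obtain ⟨⟨h, k, c⟩, hx, rfl⟩ := hS'
        obtain ⟨hh, hk, hc⟩ := (mem_Tr M h k c).mp hx
        obtain ⟨a, a', hne, hV, -⟩ := Vs_pair h (hG.three h hh).1 k hk c hc
        have ha : a ∈ Vs ⟨h, (k, c)⟩ := by rw [hV]; simp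
        have ha' : a' ∈ Vs ⟨h, (k, c)⟩ := by rw [hV]; simp
        rw [mem_Vs] at ha ha'
        refine ⟨s(pw a, pw a'), ⟨hf h, (mem_hfam M _).mpr ⟨h, hh, rfl⟩, pw a, pw a', ?_, rfl⟩, ?_⟩
        · exact (h1 n h (hG.three h hh).1 _ _).mpr ⟨a, a', rfl, rfl, ha.1, ha'.1, hne, k, hk,
            ha.2.trans ha'.2.symm, by rw [ha.2]; exact hc⟩
        · show ψ s(pw a, pw a') = pw '' (↑(Vs ⟨h, (k, c)⟩) : Set (W n))
          rw [hV, hψs, Finset.coe_pair, Set.image_pair]
    have e2 : (edg (hfam M)).ncard = ((Tr M).image Vs).card := by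
      rw [← Set.ncard_image_of_injective _ hψ, e1, Set.ncard_image_of_injective _ hP,
        Set.ncard_coe_finset]
    -- the number of the triples
    have e3 : (Tr M).card = 6 * M.card := by
      unfold Tr
      rw [Finset.card_sigma]
      have h5 : ∀ h ∈ M, (act h ×ˢ ({0, 2} : Finset (Fin 3))).card = 6 := by
        intro h hh
        rw [Finset.card_product, (hG.three h hh).1]
        rfl
      rw [Finset.sum_congr rfl h5, Finset.sum_const, smul_eq_mul, mul_comm]
    -- one hexagon
    have hone : ∀ (h : W n) (k l : Fin n) (c c' : Fin 3), (act h).card = 3 → h k = 1 → h l = 1 →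
        c ≠ 1 → c' ≠ 1 → Vs ⟨h, (l, c')⟩ = Vs ⟨h, (k, c)⟩ → l = k ∧ c' = c := by
      intro h k l c c' h5 hk hl hc hc' he
      obtain ⟨a, a', hne, hV, hV2⟩ := Vs_pair h h5 k hk c hc
      have ha : a ∈ Vs ⟨h, (k, c)⟩ := by rw [hV]; simp
      have ha' : a' ∈ Vs ⟨h, (k, c)⟩ := by rw [hV]; simp
      have hb := ha
      have hb' := ha'
      rw [← he] at hb hb'
      rw [mem_Vs] at ha ha' hb hb'
      have hlk : l = k := hV2 l hl (hb.2.trans hb'.2.symm)
      subst hlk
      exact ⟨rfl, hb.2.symm.trans ha.2⟩
    -- the fibres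
    have e4 : ∀ S ∈ (Tr M).image Vs, ((Tr M).filter fun y => Vs y = S).card = 2 := by
      intro S hS
      rw [Finset.mem_image] at hS
      obtain ⟨⟨h, k, c⟩, hx, rfl⟩ := hS
      obtain ⟨hh, hk, hc⟩ := (mem_Tr M h k c).mp hx
      obtain ⟨l, ⟨hl, hsM⟩, hlu⟩ := hG.edge h hh k hk c hc
      have hlk : l ≠ k := by
        rintro rfl
        exact hc (hl.symm.trans hk)
      have hsl : sw h k l l = 1 := by
        unfold sw
        rw [if_neg hlk, if_pos rfl, hk]
      have hfib : ((Tr M).filter fun y => Vs y = Vs ⟨h, (k, c)⟩) =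
          {⟨h, (k, c)⟩, ⟨sw h k l, (l, c)⟩} := by
        ext ⟨g, k', c'⟩
        rw [Finset.mem_filter, Finset.mem_insert, Finset.mem_singleton]
        constructor
        · rintro ⟨hy, hyV⟩
          obtain ⟨hgM, hgk, hc'⟩ := (mem_Tr M g k' c').mp hy
          by_cases hgh : g = h
          · subst hgh
            left
            obtain ⟨rfl, rfl⟩ := hone g k k' c c' (hG.three g hgM).1 hk hgk hc hc' hyV
            rfl
          · right
            obtain ⟨a, a', hne, hV, hV2⟩ := Vs_pair h (hG.three h hh).1 k hk c hc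
            have ha : a ∈ Vs ⟨h, (k, c)⟩ := by rw [hV]; simp
            have ha' : a' ∈ Vs ⟨h, (k, c)⟩ := by rw [hV]; simp
            have hb := ha
            have hb' := ha'
            rw [← hyV] at hb hb'
            rw [mem_Vs] at ha ha' hb hb'
            have hE1 : IsEdge (hf h) (pw a) (pw a') :=
              (h1 n h (hG.three h hh).1 _ _).mpr ⟨a, a', rfl, rfl, ha.1, ha'.1, hne, k, hk,
                ha.2.trans ha'.2.symm, by rw [ha.2]; exact hc⟩
            have hE2 : IsEdge (hf g) (pw a) (pw a') :=
              (h1 n g (hG.three g hgM).1 _ _).mpr ⟨a, a', rfl, rfl, hb.1, hb'.1, hne, k', hgk,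
                hb.2.trans hb'.2.symm, by rw [hb.2]; exact hc'⟩
            obtain ⟨k1, l1, hk1, hl1, hg1, ha1, ha1'⟩ := h3 n h g a a' (hG.three h hh).1
              (hG.three g hgM).1 ((hG.three h hh).2.trans (hG.three g hgM).2.symm)
              (fun h6 => hgh h6.symm) hE1 hE2
            have hk1k : k1 = k := hV2 k1 hk1 (ha1.trans ha1'.symm)
            subst hk1k
            have hl1c : h l1 = c := ha1.symm.trans ha.2
            have hl1l : l1 = l := hlu l1 ⟨hl1c, by rw [← hg1]; exact hgM⟩
            subst hl1l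
            subst hg1
            have h6 : Vs ⟨sw h k1 l1, (k', c')⟩ = Vs ⟨sw h k1 l1, (l1, c)⟩ := by
              rw [hyV, Vs_sw h k1 l1 c hk hl hc]
            obtain ⟨rfl, rfl⟩ := hone _ l1 k' c c' (hG.three _ hgM).1 hsl hgk hc hc' h6
            rfl
        · rintro (h5 | h5)
          · rw [h5]
            exact ⟨hx, rfl⟩
          · rw [h5]
            exact ⟨(mem_Tr M _ _ _).mpr ⟨hsM, hsl, hc⟩, Vs_sw h k l c hk hl hc⟩
      rw [hfib, Finset.card_pair]
      intro he
      have h6 := congrArg (fun x : Σ _ : W n, Fin n × Fin 3 => x.2.1) he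
      exact hlk h6.symm
    have e5 := Finset.card_eq_sum_card_image Vs (Tr M)
    rw [Finset.sum_congr rfl e4, Finset.sum_const, smul_eq_mul, e3] at e5
    rw [e2]
    omega
  · unfold hfam
    exact Finset.card_image_of_injOn hinj

end Pool.Agent.H12.RHX
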